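import Mathlib
import Pool.Agent.Q79.HcG

/-!
# MP_28f8a1_an: Hausdorff contents of the non-hyperbolic parameters of `a z ^ n P(z)`

Let `P` be a polynomial of positive degree with `P(0) ≠ 0`, and let `n → ∞`. In the logarithmic
coordinate `u = log a` (with `|Im u| ≤ π`) the set of parameters `a` for which `a z ^ n P(z)` is not
hyperbolic has `1`-dimensional Hausdorff content at least `2π` for all large `n`, while for every
`α > 1` its `α`-dimensional content is at most `C n ^ (-2 α)`; for the larger set where some critical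
point neither escapes nor tends to `0` this rate is sharp. The dimension of the set of parameters
with such a critical point whose forward orbit stays at distance `κ / n ^ 2` from the free critical
points tends to at most `1`.
-/

set_option autoImplicit false

open Filter Topology Polynomial MeasureTheory Metric Set
open scoped ENNReal

namespace Pool.Agent.Results.MP_28f8a1_an.HausdorffContents

/-- The polynomial as a self-map of the plane. -/
def map (T : ℂ[X]) : ℂ → ℂ := fun w : ℂ => T.eval w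

/-- The orbit of `z` escapes to infinity. -/
def Escapes (T : ℂ[X]) (z : ℂ) : Prop :=
  Tendsto (fun k : ℕ => ‖(map T)^[k] z‖) atTop atTop

/-- The orbit of `z` tends to `0`. -/
def TendsToZero (T : ℂ[X]) (z : ℂ) : Prop :=
  Tendsto (fun k : ℕ => (map T)^[k] z) atTop (𝓝 0)

/-- The orbit of `z` is attracted by a sink (attracting periodic point) of `T`. -/
def Attracted (T : ℂ[X]) (z : ℂ) : Prop :=
  ∃ x : ℂ, ∃ n : ℕ, 0 < n ∧ (map T)^[n] x = x ∧ ‖deriv ((map T)^[n]) x‖ < 1 ∧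
    Tendsto (fun k : ℕ => (map T)^[n * k] z) atTop (𝓝 x)

/-- `T` is hyperbolic: every critical point escapes or is attracted by a sink. -/
def Hyperbolic (T : ℂ[X]) : Prop :=
  ∀ c : ℂ, (derivative T).eval c = 0 → Escapes T c ∨ Attracted T c

/-- The polynomial `a z ^ n P(z)`. -/
noncomputable def poly (P : ℂ[X]) (n : ℕ) (a : ℂ) : ℂ[X] := C a * X ^ n * P

/-- The `α`-dimensional Hausdorff content: the infimum of `∑ diam(t i) ^ α` over countable covers. -/
noncomputable def content (α : ℝ) (S : Set ℂ) : ℝ≥0∞ :=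
  ⨅ (t : ℕ → Set ℂ) (_ : S ⊆ ⋃ i, t i), ∑' i, ediam (t i) ^ α

/-- The `u` with `|Im u| ≤ π` such that `a z ^ n P(z)`, `a = e ^ u`, is not hyperbolic. -/
def NonHyp (P : ℂ[X]) (n : ℕ) : Set ℂ :=
  {u | |u.im| ≤ Real.pi ∧ ¬ Hyperbolic (poly P n (Complex.exp u))}

/-- The `u` with `|Im u| ≤ π` such that some critical point of `a z ^ n P(z)`, `a = e ^ u`, neither
escapes nor tends to `0`. -/
def Exceptional (P : ℂ[X]) (n : ℕ) : Set ℂ :=
  {u | |u.im| ≤ Real.pi ∧ ∃ c : ℂ, (derivative (poly P n (Complex.exp u))).eval c = 0 ∧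
    ¬ Escapes (poly P n (Complex.exp u)) c ∧ ¬ TendsToZero (poly P n (Complex.exp u)) c}

/-- The `u` with `|Im u| ≤ π` such that some critical point of `a z ^ n P(z)`, `a = e ^ u`, neither
escapes nor tends to `0`, and all its forward images have distance at least `κ / n ^ 2` from all
critical points which are not zeros of `a z ^ n P(z)`. -/
def Separated (P : ℂ[X]) (n : ℕ) (κ : ℝ) : Set ℂ :=
  {u | |u.im| ≤ Real.pi ∧ ∃ c : ℂ, (derivative (poly P n (Complex.exp u))).eval c = 0 ∧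
    ¬ Escapes (poly P n (Complex.exp u)) c ∧ ¬ TendsToZero (poly P n (Complex.exp u)) c ∧
    ∀ j : ℕ, 1 ≤ j → ∀ c' : ℂ, (derivative (poly P n (Complex.exp u))).eval c' = 0 →
      (poly P n (Complex.exp u)).eval c' ≠ 0 →
      κ / (n : ℝ) ^ 2 ≤ ‖(map (poly P n (Complex.exp u)))^[j] c - c'‖}

section aux

open Pool.Agent.Q79.HC
open Pool.Agent.Q79.MN (fam FC)
open Pool.Agent.Q79.CM (Esc Zer Att)

theorem map_poly (P : ℂ[X]) (n : ℕ) (a : ℂ) : map (poly P n a) = fam P 1 n a := by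
  funext z
  unfold map poly
  rw [TP_eq]
  simp

theorem esc_iff (P : ℂ[X]) (n : ℕ) (a z : ℂ) : Escapes (poly P n a) z ↔ Esc (fam P 1 n a) z := by
  unfold Escapes Esc; rw [map_poly]

theorem zer_iff (P : ℂ[X]) (n : ℕ) (a z : ℂ) :
    TendsToZero (poly P n a) z ↔ Zer (fam P 1 n a) z := by
  unfold TendsToZero Zer; rw [map_poly]

theorem att_iff (P : ℂ[X]) (n : ℕ) (a z : ℂ) : Attracted (poly P n a) z ↔ Att (fam P 1 n a) z := by
  unfold Attracted Att
  rw [map_poly]
  constructor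
  · rintro ⟨x, k, hk, h⟩; exact ⟨k, hk, x, h⟩
  · rintro ⟨k, hk, x, h⟩; exact ⟨x, k, hk, h⟩

theorem deriv_eq (P : ℂ[X]) (n : ℕ) (a z : ℂ) :
    (derivative (poly P n a)).eval z = deriv (fam P 1 n a) z := by
  rw [← map_poly]
  unfold map
  rw [Polynomial.deriv]

theorem hyp_iff (P : ℂ[X]) (n : ℕ) (a : ℂ) : Hyperbolic (poly P n a) ↔ HypA P n a := by
  unfold Hyperbolic HypA
  simp only [deriv_eq, esc_iff, att_iff]

theorem exc_eq (P : ℂ[X]) (n : ℕ) : Exceptional P n = NEs P n := by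
  unfold Exceptional NEs
  simp only [deriv_eq, esc_iff, zer_iff]

theorem sep_sub {P : ℂ[X]} {n : ℕ} (hn : 1 ≤ n) (κ : ℝ) : Separated P n κ ⊆ Sep P n κ := by
  rintro u ⟨hu, c, hc, h1, h2, h3⟩
  rw [deriv_eq] at hc
  rw [esc_iff] at h1
  rw [zer_iff] at h2
  refine ⟨hu, c, hc, ⟨h1, h2⟩, fun j hj c' hc' => ?_⟩
  have h4 := h3 j hj c' (by rw [deriv_eq]; exact FC.deriv hn hc') (by
    have h5 := congrFun (map_poly P n (Complex.exp u)) c'
    unfold map at h5
    rw [h5, TP_eq]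
    exact mul_ne_zero (mul_ne_zero (Complex.exp_ne_zero u) (pow_ne_zero _ (hc'.ne_zero hn))) hc'.1)
  rwa [map_poly] at h4

end aux

open Pool.Agent.Q79.HC in
theorem result (P : ℂ[X]) (h0 : P.eval 0 ≠ 0) (hd : 0 < P.natDegree) :
    -- non-hyperbolic parameters on every ray; the content of dimension one
    (∃ n₀ : ℕ, ∀ n ≥ n₀,
      (∀ v : ℂ, ‖v‖ = 1 → ∃ r : ℝ, 0 < r ∧ ¬ Hyperbolic (poly P n (r * v))) ∧
      ENNReal.ofReal (2 * Real.pi) ≤ content 1 (NonHyp P n)) ∧
    (∀ n ≥ 2, NonHyp P n ⊆ Exceptional P n) ∧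
    -- the contents of dimension larger than one
    (∀ α : ℝ, 1 < α → α ≤ 2 → ∃ (c C : ℝ) (n₀ : ℕ), 0 < c ∧ ∀ n ≥ n₀,
      ENNReal.ofReal (c / (n : ℝ) ^ (2 * α)) ≤ content α (Exceptional P n) ∧
      content α (Exceptional P n) ≤ ENNReal.ofReal (C / (n : ℝ) ^ (2 * α))) ∧
    -- the dimension of the parameters without close returns
    (∃ κ : ℝ, ∀ α : ℝ, 1 < α → ∃ n₀ : ℕ, ∀ n ≥ n₀,
      dimH (Separated P n κ) ≤ ENNReal.ofReal α) := by
  refine ⟨?_, ?_, ?_, ?_⟩
  · obtain ⟨n₀, h⟩ := ray h0 hd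
    refine ⟨n₀, fun n hn => ?_⟩
    have h1 : ∀ v : ℂ, ‖v‖ = 1 → ∃ r : ℝ, 0 < r ∧ ¬ Hyperbolic (poly P n (r * v)) := by
      intro v hv
      obtain ⟨r, hr, h2⟩ := h n hn v hv
      exact ⟨r, hr, by rwa [hyp_iff]⟩
    refine ⟨h1, ?_⟩
    have h2 := Hc_one (S := NonHyp P n) one_pos (a := -Real.pi) (b := Real.pi) (by
      intro θ hθ
      obtain ⟨r, hr, h3⟩ := h1 (Complex.exp (θ * Complex.I)) (Complex.norm_exp_ofReal_mul_I θ)
      refine ⟨(Real.log r : ℂ) + θ * Complex.I, ⟨?_, ?_⟩, ?_⟩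
      · rw [abs_le]
        simpa using hθ
      · rw [Complex.exp_add, ← Complex.ofReal_exp, Real.exp_log hr]
        exact h3
      · simp)
    rw [show Real.pi - -Real.pi = 2 * Real.pi by ring] at h2
    exact h2
  · intro n hn u hu
    rw [exc_eq]
    obtain ⟨hu1, hu2⟩ := hu
    refine ⟨hu1, ?_⟩
    rw [hyp_iff] at hu2
    unfold HypA at hu2
    push Not at hu2
    obtain ⟨c, hc, h1, h2⟩ := hu2
    refine ⟨c, hc, h1, fun hz => h2 ?_⟩
    obtain ⟨h3, h4⟩ := sink_zero (P := P) hn (Complex.exp u)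
    refine ⟨1, one_pos, 0, by rw [Function.iterate_one]; exact h3, by
      rw [Function.iterate_one]; exact h4, ?_⟩
    have hz' : Tendsto (fun k : ℕ => (Pool.Agent.Q79.MN.fam P 1 n (Complex.exp u))^[k] c) atTop
      (𝓝 0) := hz
    simpa only [one_mul] using hz'
  · intro α hα1 hα2
    obtain ⟨κ, -, h⟩ := main_upper h0
    obtain ⟨C, n₁, hC, h1⟩ := h α hα1 hα2
    obtain ⟨n₂, h2⟩ := content_lower h0 hd
    have hα : 0 < α := by linarith
    refine ⟨(1 / (400 * Real.pi)) ^ (α / 2), C, max n₁ n₂,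
      Real.rpow_pos_of_pos (by have := Real.pi_pos; positivity) _, fun n hn => ?_⟩
    rw [exc_eq]
    exact ⟨h2 n ((le_max_right _ _).trans hn) α hα hα2, (h1 n ((le_max_left _ _).trans hn)).1⟩
  · obtain ⟨κ, -, h⟩ := main_upper h0
    refine ⟨κ, fun α hα => ?_⟩
    obtain ⟨C, n₁, hC, h1⟩ := h (min α 2) (lt_min hα (by norm_num)) (min_le_right _ _)
    refine ⟨max 1 n₁, fun n hn => ?_⟩
    calc dimH (Separated P n κ) ≤ dimH (Sep P n κ) :=
          dimH_mono (sep_sub ((le_max_left _ _).trans hn) κ)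
      _ ≤ ENNReal.ofReal (min α 2) := (h1 n ((le_max_right _ _).trans hn)).2
      _ ≤ _ := ENNReal.ofReal_le_ofReal (min_le_left _ _)

end Pool.Agent.Results.MP_28f8a1_an.HausdorffContents
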