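import Mathlib
import Pool.Agent.Q78.SL.Julia

/-!
# MP_28f8a1_an: linear area bounds in the space of polynomials

The distance from a polynomial `T` of degree `d` to the polynomials of degree `d` which have a
critical point that escapes or is attracted by a sink is at most `(d / π) |a_d|` times the area of
the Julia set of `T`; for `d = 2` this is the distance to the hyperbolic polynomials. The distance
to the polynomials with an escaping critical point is at most `(d / π) |a_d|` times the area of the
filled Julia set, also in every direction `h` whose coefficient of `z ^ (d - 2)` is one. Holomorphic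
families of monic centered polynomials of degree `d` without escaping critical points have speed at
most `C_d` times the area of the filled Julia set.
-/

set_option autoImplicit false

open Filter Topology Polynomial MeasureTheory Metric

namespace Pool.Agent.Results.MP_28f8a1_an.LinearAreaBound

/-- The polynomial as a self-map of the plane. -/
def map (T : ℂ[X]) : ℂ → ℂ := fun w : ℂ => T.eval w

/-- The orbit of `z` escapes to infinity. -/
def Escapes (T : ℂ[X]) (z : ℂ) : Prop :=
  Tendsto (fun k : ℕ => ‖(map T)^[k] z‖) atTop atTop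

/-- The orbit of `z` is attracted by a sink (attracting periodic point) of `T`. -/
def Attracted (T : ℂ[X]) (z : ℂ) : Prop :=
  ∃ n : ℕ, 0 < n ∧ ∃ x : ℂ, (map T)^[n] x = x ∧ ‖deriv ((map T)^[n]) x‖ < 1 ∧
    Tendsto (fun k : ℕ => (map T)^[n * k] z) atTop (𝓝 x)

/-- The point `z` belongs to the basin of a parabolic cycle of `T`. -/
def InParabolicBasin (T : ℂ[X]) (z : ℂ) : Prop :=
  ∃ (n : ℕ) (x : ℂ), 0 < n ∧ (map T)^[n] x = x ∧ deriv ((map T)^[n]) x = 1 ∧
    Tendsto (fun k : ℕ => (map T)^[n * k] z) atTop (𝓝 x) ∧ ∀ k : ℕ, (map T)^[n * k] z ≠ x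

/-- The point `z` is mapped by an iterate of `T` into a disc on which an iterate of `T` is
conjugate to an irrational rotation (a Siegel disc). -/
def InSiegelDisc (T : ℂ[X]) (z : ℂ) : Prop :=
  ∃ (m n : ℕ) (r : ℝ) (h : ℂ → ℂ) (ρ : ℂ), 0 < n ∧ 0 < r ∧ ‖ρ‖ = 1 ∧
    (∀ k : ℕ, 0 < k → ρ ^ k ≠ 1) ∧ DifferentiableOn ℂ h (ball 0 r) ∧ Set.InjOn h (ball 0 r) ∧
    (∀ w ∈ ball (0 : ℂ) r, (map T)^[n] (h w) = h (ρ * w)) ∧ (map T)^[m] z ∈ h '' ball 0 r

/-- The points which are in none of the basins and not mapped into a Siegel disc. By Sullivan's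
theorem and the classification of periodic Fatou components this is the Julia set of `T`. -/
def Js (T : ℂ[X]) : Set ℂ :=
  {z : ℂ | ¬ (Escapes T z ∨ Attracted T z ∨ InParabolicBasin T z ∨ InSiegelDisc T z)}

/-- The filled Julia set: the points with bounded orbit. -/
def filledJulia (T : ℂ[X]) : Set ℂ := {z : ℂ | ¬ Escapes T z}

/-- `c` is a critical point of `T`. -/
def Critical (T : ℂ[X]) (c : ℂ) : Prop := (derivative T).eval c = 0

/-- `S` is hyperbolic: every critical point escapes or is attracted by a sink. -/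
def Hyperbolic (S : ℂ[X]) : Prop := ∀ c : ℂ, Critical S c → Escapes S c ∨ Attracted S c

/-- `T` is a monic centered polynomial of degree `d` without escaping critical points, that is, with
connected Julia set. -/
def InConnectednessLocus (d : ℕ) (T : ℂ[X]) : Prop :=
  T.natDegree = d ∧ T.coeff d = 1 ∧ T.coeff (d - 1) = 0 ∧ ∀ c : ℂ, Critical T c → ¬ Escapes T c

theorem Js_eq (T : ℂ[X]) : Js T = Pool.Agent.H713R5.QJ.JS T := by
  ext z
  have : (Pool.Agent.H713R5.QJ.Good (Pool.Agent.H713R5.QJ.ev T) z ∨
      Pool.Agent.H713R5.QJ.Para (Pool.Agent.H713R5.QJ.ev T) z ∨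
      Pool.Agent.H713R5.QJ.Sieg (Pool.Agent.H713R5.QJ.ev T) z) ↔
      (Escapes T z ∨ Attracted T z ∨ InParabolicBasin T z ∨ InSiegelDisc T z) :=
    or_assoc
  exact (not_congr this).symm

/-- (1) Let `T` be a polynomial of degree `d ≥ 2` with leading coefficient `a`. The area of the
Julia set of `T` is finite, and for every `r > (d / π) |a| area (Js T)` there is a polynomial `S` of
degree `d` with the same leading coefficient, whose coefficients differ from those of `T` by less
than `r`, and which has a critical point that escapes or is attracted by a sink; if `d = 2` then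
there is a hyperbolic `S` with these properties.
(2) Let `T` be a polynomial of degree `d ≥ 2` with leading coefficient `a`, and `h` a polynomial of
degree at most `d - 2`. If `r |h_{d-2}| > (d / π) |a| area (filledJulia T)` then there is `t`, `|t| < r`,
such that `T + t h` has an escaping critical point.
(3) For every `d ≥ 2` there is a constant `C` such that
* if `T` is in the connectedness locus (monic centered, degree `d`), `h` is of degree at most `d - 2`
and `r |h_k| > C area (filledJulia T)` for some `k`, then there is `t`, `|t| < r`, such that `T + t h` has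
an escaping critical point;
* if `T t`, `t` in the unit disc, are in the connectedness locus and the coefficients of `T t` are
holomorphic functions of `t`, then their derivatives at `t = 0` are at most `C area (filledJulia (T 0))`,
and the one of the coefficient of `z ^ (d - 2)` is at most `(d / π) area (filledJulia (T 0))`. -/
theorem result :
    (∀ T : ℂ[X], 2 ≤ T.natDegree → volume (Js T) < ⊤ ∧ ∀ r : ℝ,
      T.natDegree / Real.pi * ‖T.leadingCoeff‖ * (volume (Js T)).toReal < r →
      ∃ S : ℂ[X], S.natDegree = T.natDegree ∧ S.leadingCoeff = T.leadingCoeff ∧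
        (∀ i : ℕ, ‖S.coeff i - T.coeff i‖ < r) ∧
        (∃ c : ℂ, Critical S c ∧ (Escapes S c ∨ Attracted S c)) ∧
        (T.natDegree = 2 → Hyperbolic S)) ∧
    (∀ T h : ℂ[X], 2 ≤ T.natDegree → h.natDegree + 2 ≤ T.natDegree → ∀ r : ℝ,
      T.natDegree / Real.pi * ‖T.leadingCoeff‖ * (volume (filledJulia T)).toReal <
        r * ‖h.coeff (T.natDegree - 2)‖ →
      ∃ t : ℂ, ‖t‖ < r ∧ ∃ c : ℂ, Critical (T + C t * h) c ∧ Escapes (T + C t * h) c) ∧
    ∀ d : ℕ, 2 ≤ d → ∃ C₀ : ℝ, 0 < C₀ ∧
      (∀ T h : ℂ[X], InConnectednessLocus d T → h.natDegree + 2 ≤ d → ∀ (k : ℕ) (r : ℝ),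
        C₀ * (volume (filledJulia T)).toReal < r * ‖h.coeff k‖ →
        ∃ t : ℂ, ‖t‖ < r ∧ ∃ c : ℂ, Critical (T + C t * h) c ∧ Escapes (T + C t * h) c) ∧
      ∀ T : ℂ → ℂ[X], (∀ t ∈ ball (0 : ℂ) 1, InConnectednessLocus d (T t)) →
        (∀ k : ℕ, DifferentiableOn ℂ (fun t => (T t).coeff k) (ball 0 1)) →
        (∀ k : ℕ, ‖deriv (fun t => (T t).coeff k) 0‖ ≤
          C₀ * (volume (filledJulia (T 0))).toReal) ∧
        ‖deriv (fun t => (T t).coeff (d - 2)) 0‖ ≤
          d / Real.pi * (volume (filledJulia (T 0))).toReal := by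
  refine ⟨?_, ?_, ?_⟩
  · intro T hd
    have hfin : volume (Js T) < ⊤ := by
      rw [Js_eq]
      exact (Q78.SL.julia_dist hd (r := T.natDegree / Real.pi * ‖T.leadingCoeff‖ *
        (volume (Pool.Agent.H713R5.QJ.JS T)).toReal + 1) (by linarith)).1
    refine ⟨hfin, fun r hr => ?_⟩
    rw [Js_eq] at hr
    obtain ⟨-, S, h1, h2, h3, c, h4, h5⟩ := Q78.SL.julia_dist hd hr
    refine ⟨S, h1, h2, h3, ⟨c, h4, h5⟩, ?_⟩
    intro hT2 c' hc'
    have hd1 : (derivative S).natDegree ≤ 1 := by
      have := natDegree_derivative_le S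
      omega
    have ha : S.coeff 2 ≠ 0 := by
      have h := leadingCoeff_ne_zero.2 (show S ≠ 0 by
        rintro rfl
        rw [natDegree_zero] at h1
        omega)
      rwa [leadingCoeff, h1, hT2] at h
    have hev : ∀ w : ℂ, (derivative S).eval w = S.coeff 1 + 2 * S.coeff 2 * w := by
      intro w
      rw [Polynomial.eval_eq_sum_range' (Nat.lt_succ_of_le hd1), Finset.sum_range_succ,
        Finset.sum_range_one, coeff_derivative, coeff_derivative]
      push_cast; ring
    have e1 : (derivative S).eval c' = 0 := hc'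
    rw [hev] at h4 e1
    have e2 : 2 * S.coeff 2 * (c' - c) = 0 := by linear_combination e1 - h4
    have e3 : c' - c = 0 := (mul_eq_zero.1 e2).resolve_left (mul_ne_zero two_ne_zero ha)
    rw [sub_eq_zero.1 e3]
    exact h5
  · intro T h hd hh r hr
    obtain ⟨t, ht, hne⟩ := Q78.SL.direction hd hh hr
    refine ⟨t, ht, ?_⟩
    by_contra hcon
    push Not at hcon
    exact hne fun c hc hesc => hcon c hc hesc
  · intro d hd
    obtain ⟨C₁, hC₁, H₁⟩ := Q78.SL.direction_all d hd
    obtain ⟨C₂, hC₂, H₂⟩ := Q78.SL.speed d hd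
    have hPP : ∀ T : ℂ[X], InConnectednessLocus d T → Q78.SL.PP d T := by
      rintro T ⟨h1, h2, h3, h4⟩
      exact ⟨hd, h1, h2, h3, fun c hc hesc => h4 c hc hesc⟩
    refine ⟨max C₁ C₂, lt_max_of_lt_left hC₁, ?_, ?_⟩
    · intro T h hT hh k r hr
      have har : 0 ≤ (volume (filledJulia T)).toReal := ENNReal.toReal_nonneg
      obtain ⟨t, ht, hne⟩ := H₁ T h (hPP T hT) hh k r
        (lt_of_le_of_lt (mul_le_mul_of_nonneg_right (le_max_left _ _) har) hr)
      refine ⟨t, ht, ?_⟩
      by_contra hcon
      push Not at hcon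
      exact hne fun c hc hesc => hcon c hc hesc
    · intro T hT hol
      have har : 0 ≤ (volume (filledJulia (T 0))).toReal := ENNReal.toReal_nonneg
      obtain ⟨a1, a2⟩ := H₂ T (fun t ht => hPP _ (hT t ht)) hol
      exact ⟨fun k => (a2 k).trans (mul_le_mul_of_nonneg_right (le_max_right _ _) har), a1⟩

end Pool.Agent.Results.MP_28f8a1_an.LinearAreaBound
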