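import Mathlib
import Pool.Agent.Q79.CmpJ

/-!
# MP_28f8a1_an: the families `a z ^ n (1 - z) ^ m` against the quadratic family

The polynomial `a z ^ n (1 - z) ^ m` has one free critical point, `z = n / (n + m)`. As `n → ∞` with
`m` fixed, the logarithmic area `dA(a) / |a| ^ 2` of the parameters `a` for which the polynomial is
not hyperbolic is asymptotically at most `4 m ^ 2 / n ^ 4` times the area of the parameters `c` for
which `z ^ 2 + c` is not hyperbolic; the same comparison holds for the set where the free critical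
point has a bounded orbit which does not tend to `0` (with the Mandelbrot set), and for the
distances to the hyperbolic parameters.
-/

set_option autoImplicit false

open Filter Topology Polynomial MeasureTheory Metric
open scoped ENNReal

namespace Pool.Agent.Results.MP_28f8a1_an.QuadraticComparison

/-- The polynomial as a self-map of the plane. -/
def map (T : ℂ[X]) : ℂ → ℂ := fun w : ℂ => T.eval w

/-- The orbit of `z` escapes to infinity. -/
def Escapes (T : ℂ[X]) (z : ℂ) : Prop :=
  Tendsto (fun k : ℕ => ‖(map T)^[k] z‖) atTop atTop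

/-- The orbit of `z` is attracted by the sink (attracting periodic point) `x` of `T`. -/
def AttractedTo (T : ℂ[X]) (z x : ℂ) : Prop :=
  ∃ n : ℕ, 0 < n ∧ (map T)^[n] x = x ∧ ‖deriv ((map T)^[n]) x‖ < 1 ∧
    Tendsto (fun k : ℕ => (map T)^[n * k] z) atTop (𝓝 x)

/-- `T` is hyperbolic: every critical point escapes or is attracted by a sink. -/
def Hyperbolic (T : ℂ[X]) : Prop :=
  ∀ c : ℂ, (derivative T).eval c = 0 → Escapes T c ∨ ∃ x, AttractedTo T c x

/-- The polynomial `a z ^ n (1 - z) ^ m`. -/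
noncomputable def poly (m n : ℕ) (a : ℂ) : ℂ[X] := C a * X ^ n * (1 - X) ^ m

/-- Its free critical point. -/
noncomputable def crit (m n : ℕ) : ℂ := n / (n + m)

/-- The quadratic polynomial `z ^ 2 + c`. -/
noncomputable def quad (c : ℂ) : ℂ[X] := X ^ 2 + C c

/-- The logarithmic area `dA(a) / |a| ^ 2`. -/
noncomputable def logArea : Measure ℂ := volume.withDensity fun a => ENNReal.ofReal ((‖a‖ ^ 2)⁻¹)

/-- `n ^ 4` times the logarithmic area of a set of parameters `a`, as a function of `n`. -/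
noncomputable def area (S : ℕ → Set ℂ) (n : ℕ) : ℝ≥0∞ := (n : ℝ≥0∞) ^ 4 * logArea (S n)

/-- `n ^ 2` times the supremum over `a ≠ 0` of the relative distance from `a` to the hyperbolic
parameters. -/
noncomputable def gap (m n : ℕ) : ℝ≥0∞ :=
  (n : ℝ≥0∞) ^ 2 * ⨆ (a : ℂ) (_ : a ≠ 0),
    infEDist a {a | a ≠ 0 ∧ Hyperbolic (poly m n a)} / ‖a‖ₑ

/-- The parameters `a` for which `a z ^ n (1 - z) ^ m` is not hyperbolic. -/
def NonHyp (m n : ℕ) : Set ℂ := {a | ¬ Hyperbolic (poly m n a)}

/-- The parameters `a` for which the free critical point neither escapes nor tends to `0`. -/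
def NonEsc (m n : ℕ) : Set ℂ :=
  {a | ¬ Escapes (poly m n a) (crit m n) ∧
    ¬ Tendsto (fun k : ℕ => (map (poly m n a))^[k] (crit m n)) atTop (𝓝 0)}

/-- The parameters `a` for which the free critical point is attracted by a sink other than `0`. -/
def Comp (m n : ℕ) : Set ℂ := {a | ∃ x : ℂ, x ≠ 0 ∧ AttractedTo (poly m n a) (crit m n) x}

/-- The Mandelbrot set. -/
def Mandelbrot : Set ℂ := {c | ¬ Escapes (quad c) 0}

/-- The parameters `c` for which `z ^ 2 + c` is hyperbolic. -/
def HypQuad : Set ℂ := {c | Hyperbolic (quad c)}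

section aux

open Pool.Agent.Q79.CM (Esc Att T cc Hs HQ HC Mand Nz Zer)

theorem map_poly (m n : ℕ) (a : ℂ) : map (poly m n a) = T m n a := by
  funext z
  unfold map poly T
  simp

theorem map_quad (c : ℂ) : map (quad c) = Pool.Agent.Q79.CM.Qd c := by
  funext z
  unfold map quad Pool.Agent.Q79.CM.Qd
  simp

theorem crit_eq (m n : ℕ) : crit m n = cc m n := by
  unfold crit cc; push_cast; ring

theorem esc_iff (m n : ℕ) (a z : ℂ) : Escapes (poly m n a) z ↔ Esc (T m n a) z := by
  unfold Escapes Esc; rw [map_poly]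

theorem att_iff (m n : ℕ) (a z : ℂ) : (∃ x, AttractedTo (poly m n a) z x) ↔ Att (T m n a) z := by
  unfold AttractedTo Att
  rw [map_poly]
  constructor
  · rintro ⟨x, k, hk, h⟩; exact ⟨k, hk, x, h⟩
  · rintro ⟨k, hk, x, h⟩; exact ⟨x, k, hk, h⟩

theorem att_iff_quad (c z : ℂ) : (∃ x, AttractedTo (quad c) z x) ↔
    Att (Pool.Agent.Q79.CM.Qd c) z := by
  unfold AttractedTo Att
  rw [map_quad]
  constructor
  · rintro ⟨x, k, hk, h⟩; exact ⟨k, hk, x, h⟩
  · rintro ⟨k, hk, x, h⟩; exact ⟨x, k, hk, h⟩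

theorem deriv_eq (m n : ℕ) (a z : ℂ) : (derivative (poly m n a)).eval z = deriv (T m n a) z := by
  rw [← map_poly]
  unfold map
  rw [Polynomial.deriv]

theorem hyp_iff {m n : ℕ} (hm : 1 ≤ m) (hn : 2 ≤ n) {a : ℂ} (ha : a ≠ 0) :
    Hyperbolic (poly m n a) ↔ a ∈ Hs m n := by
  constructor
  · intro h
    refine ⟨ha, ?_⟩
    have h0 : (derivative (poly m n a)).eval (cc m n : ℂ) = 0 := by
      unfold poly
      have hcc : (cc m n : ℂ) = n / (n + m) := by
        unfold cc; push_cast; ring
      have hnm : ((n:ℂ) + m) ≠ 0 := by exact_mod_cast (by omega : n + m ≠ 0)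
      obtain ⟨n', rfl⟩ : ∃ k, n = k + 1 := ⟨n - 1, by omega⟩
      obtain ⟨m', rfl⟩ : ∃ k, m = k + 1 := ⟨m - 1, by omega⟩
      rw [derivative_mul, derivative_mul, derivative_C, derivative_X_pow, derivative_pow]
      simp only [eval_add, eval_mul, eval_pow, eval_C, eval_X, eval_sub, eval_one, derivative_sub,
        derivative_one, derivative_X, zero_sub, eval_neg, zero_mul, zero_add, Nat.add_sub_cancel]
      have key : ((n' + 1 : ℕ) : ℂ) * (1 - (cc (m' + 1) (n' + 1) : ℂ)) =
          (cc (m' + 1) (n' + 1) : ℂ) * ((m' + 1 : ℕ) : ℂ) := by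
        rw [hcc]
        field_simp
        ring
      rw [pow_succ, pow_succ]
      linear_combination a * (cc (m' + 1) (n' + 1) : ℂ) ^ n' *
        (1 - (cc (m' + 1) (n' + 1) : ℂ)) ^ m' * key
    rcases h _ h0 with h1 | h1
    · exact Or.inl ((esc_iff m n a _).1 h1)
    · exact Or.inr ((att_iff m n a _).1 h1)
  · rintro ⟨-, h⟩ c hc
    rw [deriv_eq] at hc
    rcases Pool.Agent.Q79.CM.hyp_of hm hn ha h c hc with h1 | h1
    · exact Or.inl ((esc_iff m n a _).2 h1)
    · exact Or.inr ((att_iff m n a _).2 h1)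

theorem hypQuad_eq : HypQuad = HQ := by
  ext c
  have h0 : ∀ z : ℂ, (derivative (quad c)).eval z = 2 * z := by
    intro z; unfold quad; simp; left; norm_num
  have h1 : Hyperbolic (quad c) ↔ Escapes (quad c) 0 ∨ ∃ x, AttractedTo (quad c) 0 x := by
    constructor
    · intro h; exact h 0 (by rw [h0, mul_zero])
    · intro h z hz
      rw [h0] at hz
      have : z = 0 := by simpa using hz
      rw [this]; exact h
  unfold HypQuad HQ HC Mand
  simp only [Set.mem_ofPred_eq, Set.mem_union, Set.mem_compl_iff, not_not]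
  rw [h1, att_iff_quad]
  unfold Escapes Esc
  rw [map_quad]
  exact or_comm

theorem mandelbrot_eq : Mandelbrot = Mand := by
  unfold Mandelbrot Mand Escapes Esc
  simp only [map_quad]

theorem nonhyp_quad : {c | ¬ Hyperbolic (quad c)} = Mand \ HC := by
  have h : {c | ¬ Hyperbolic (quad c)} = HQᶜ := by
    rw [← hypQuad_eq]; rfl
  rw [h]
  unfold HQ
  ext c
  simp only [Set.mem_compl_iff, Set.mem_union, not_or, not_not, Set.mem_sdiff]
  exact and_comm

theorem logArea_eq : logArea = Pool.Agent.Q79.MN.logArea := rfl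

theorem hyp_compl : HypQuadᶜ = Mand \ HC := nonhyp_quad

theorem mand_inter : Mandelbrot ∩ HypQuad = HC := by
  rw [mandelbrot_eq, hypQuad_eq]
  unfold HQ
  ext c
  simp only [Set.mem_inter_iff, Set.mem_union, Set.mem_compl_iff]
  constructor
  · rintro ⟨h1, h2 | h2⟩
    · exact h2
    · exact absurd h1 h2
  · intro h
    exact ⟨Pool.Agent.Q79.CM.HC_sub h, Or.inl h⟩

theorem comp_eq (m n : ℕ) : Comp m n = {a | Nz m n a} := by
  ext a
  unfold Comp AttractedTo Nz
  simp only [Set.mem_ofPred_eq]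
  rw [map_poly, crit_eq]
  constructor
  · rintro ⟨x, hx, k, hk, h⟩; exact ⟨k, hk, x, hx, h⟩
  · rintro ⟨k, hk, x, hx, h⟩; exact ⟨x, hx, k, hk, h⟩

theorem nonEsc_eq (m n : ℕ) :
    NonEsc m n = {a | ¬ (Zer (T m n a) (cc m n) ∨ Esc (T m n a) (cc m n))} := by
  ext a
  unfold NonEsc Zer
  simp only [Set.mem_ofPred_eq, not_or]
  rw [esc_iff, map_poly, crit_eq]
  exact and_comm

theorem comp_sub (m n : ℕ) : Comp m n ⊆ NonEsc m n := by
  intro a ha
  rw [comp_eq] at ha
  rw [nonEsc_eq]
  exact not_or.2 ⟨ha.not_zer, ha.not_esc⟩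

theorem area_le {S S' : ℕ → Set ℂ} (h : ∀ᶠ n in atTop, S n ⊆ {0} ∪ S' n) :
    limsup (area S) atTop ≤
      limsup (fun n : ℕ => (n:ℝ≥0∞) ^ 4 * Pool.Agent.Q79.MN.logArea (S' n)) atTop := by
  apply limsup_le_limsup _ (by isBoundedDefault) (by isBoundedDefault)
  filter_upwards [h] with n hn
  unfold area
  rw [logArea_eq]
  apply mul_le_mul_right
  refine (measure_mono hn).trans ((measure_union_le _ _).trans ?_)
  rw [Pool.Agent.Q79.MN.logArea_zero, zero_add]

theorem gap_eq {m n : ℕ} (hm : 1 ≤ m) (hn : 2 ≤ n) :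
    gap m n = (n:ℝ≥0∞) ^ 2 * ⨆ (a : ℂ) (_ : a ≠ 0), infEDist a (Hs m n) / ‖a‖ₑ := by
  have h : {a : ℂ | a ≠ 0 ∧ Hyperbolic (poly m n a)} = Hs m n := by
    ext a
    constructor
    · rintro ⟨h1, h2⟩; exact (hyp_iff hm hn h1).1 h2
    · intro h; exact ⟨h.1, (hyp_iff hm hn h.1).2 h⟩
  unfold gap
  rw [h]

theorem HC_pos : 0 < volume HC := by
  refine Pool.Agent.Q79.CM.isOpen_HC.measure_pos volume ⟨0, 1, one_pos, 0, ?_, ?_, ?_⟩
  · simp [Pool.Agent.Q79.CM.Qd]
  · rw [Function.iterate_one]
    have h : HasDerivAt (Pool.Agent.Q79.CM.Qd 0) 0 0 := by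
      unfold Pool.Agent.Q79.CM.Qd
      have := ((hasDerivAt_id (0:ℂ)).pow 2).add_const (0:ℂ)
      refine this.congr_deriv ?_
      simp
    rw [h.deriv]; simp
  · have h0 : Pool.Agent.Q79.CM.Qd 0 0 = 0 := by simp [Pool.Agent.Q79.CM.Qd]
    have h1 : ∀ k, (Pool.Agent.Q79.CM.Qd 0)^[k] 0 = 0 := fun k => Function.iterate_fixed h0 k
    simp only [h1]
    exact tendsto_const_nhds

end aux

/-- Let `m ≥ 1`. As `n → ∞`, in the family `a z ^ n (1 - z) ^ m`:
(1) the logarithmic area of the non-hyperbolic parameters is at most `(4 m ^ 2 + o(1)) / n ^ 4`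
times the area of the non-hyperbolic parameters of the quadratic family;
(2) the logarithmic area of the parameters whose free critical point neither escapes nor tends
to `0` is at most `(4 m ^ 2 + o(1)) / n ^ 4` times the area of the Mandelbrot set, and at least
`(4 m ^ 2 + o(1)) / n ^ 4` times the area of the hyperbolic part of the Mandelbrot set, already
the ones for which it is attracted by a sink other than `0`;
(3) every parameter `a ≠ 0` is within `(2 m δ + o(1)) |a| / n ^ 2` of the hyperbolic ones, `δ` the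
supremum of the distances from complex numbers `c` to the hyperbolic parameters of the quadratic
family.
Hence (4) if almost every quadratic polynomial is hyperbolic then the area in (1) is
`o(1 / n ^ 4)` and the areas in (2) are `(4 m ^ 2 area (Mandelbrot) + o(1)) / n ^ 4`, and (5) if
hyperbolicity is dense in the quadratic family, the distances in (3) are `o(|a| / n ^ 2)`. -/
theorem result (m : ℕ) (hm : 1 ≤ m) :
    limsup (area (NonHyp m)) atTop ≤ ENNReal.ofReal (4 * m ^ 2) * volume HypQuadᶜ ∧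
    limsup (area (NonEsc m)) atTop ≤ ENNReal.ofReal (4 * m ^ 2) * volume Mandelbrot ∧
    ENNReal.ofReal (4 * m ^ 2) * volume (Mandelbrot ∩ HypQuad) ≤ liminf (area (Comp m)) atTop ∧
    (∀ n, Comp m n ⊆ NonEsc m n) ∧ 0 < volume (Mandelbrot ∩ HypQuad) ∧ volume Mandelbrot < ⊤ ∧
    limsup (gap m) atTop ≤ ENNReal.ofReal (2 * m) * ⨆ c : ℂ, infEDist c HypQuad ∧
    (volume HypQuadᶜ = 0 → Tendsto (area (NonHyp m)) atTop (𝓝 0) ∧
      Tendsto (area (NonEsc m)) atTop (𝓝 (ENNReal.ofReal (4 * m ^ 2) * volume Mandelbrot)) ∧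
      Tendsto (area (Comp m)) atTop (𝓝 (ENNReal.ofReal (4 * m ^ 2) * volume Mandelbrot))) ∧
    (Dense HypQuad → Tendsto (gap m) atTop (𝓝 0)) := by
  have h1 : limsup (area (NonHyp m)) atTop ≤ ENNReal.ofReal (4 * m ^ 2) * volume HypQuadᶜ := by
    rw [hyp_compl]
    refine (area_le ?_).trans (Pool.Agent.Q79.CM.area_nonhyp hm)
    filter_upwards [eventually_ge_atTop 2] with n hn a ha
    by_cases h0 : a = 0
    · exact Or.inl h0
    · exact Or.inr ⟨h0, fun h => ha ((hyp_iff hm hn h0).2 h)⟩
  have h2 : limsup (area (NonEsc m)) atTop ≤ ENNReal.ofReal (4 * m ^ 2) * volume Mandelbrot := by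
    rw [mandelbrot_eq]
    refine (area_le ?_).trans (Pool.Agent.Q79.CM.area_nonesc hm)
    refine Eventually.of_forall fun n a ha => ?_
    rw [nonEsc_eq] at ha
    by_cases h0 : a = 0
    · exact Or.inl h0
    · exact Or.inr ⟨h0, ha⟩
  have h3 : ENNReal.ofReal (4 * m ^ 2) * volume (Mandelbrot ∩ HypQuad) ≤
      liminf (area (Comp m)) atTop := by
    rw [mand_inter]
    refine (Pool.Agent.Q79.CM.area_lower hm).trans (le_of_eq ?_)
    congr 1
    funext n
    unfold area
    rw [comp_eq, logArea_eq]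
  have h4 : limsup (gap m) atTop ≤ ENNReal.ofReal (2 * m) * ⨆ c : ℂ, infEDist c HypQuad := by
    rw [hypQuad_eq]
    refine le_trans (le_of_eq ?_) (Pool.Agent.Q79.CM.dist_core hm)
    apply limsup_congr
    filter_upwards [eventually_ge_atTop 2] with n hn
    exact gap_eq hm hn
  refine ⟨h1, h2, h3, comp_sub m, ?_, ?_, h4, fun h0 => ⟨?_, ?_⟩, fun hd => ?_⟩
  · rw [mand_inter]; exact HC_pos
  · rw [mandelbrot_eq]; exact Pool.Agent.Q79.CM.Mand_fin.lt_top
  · rw [h0, mul_zero] at h1
    exact tendsto_of_le_liminf_of_limsup_le zero_le h1 (by isBoundedDefault) (by isBoundedDefault)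
  · have h5 : volume Mandelbrot ≤ volume (Mandelbrot ∩ HypQuad) := by
      calc volume Mandelbrot ≤ volume ((Mandelbrot ∩ HypQuad) ∪ HypQuadᶜ) := by
            apply measure_mono
            intro c hc
            by_cases h : c ∈ HypQuad
            · exact Or.inl ⟨hc, h⟩
            · exact Or.inr h
        _ ≤ volume (Mandelbrot ∩ HypQuad) + volume HypQuadᶜ := measure_union_le _ _
        _ = volume (Mandelbrot ∩ HypQuad) := by rw [h0, add_zero]
    have h6 : ENNReal.ofReal (4 * m ^ 2) * volume Mandelbrot ≤ liminf (area (Comp m)) atTop :=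
      (mul_le_mul_right h5 _).trans h3
    have h7 : ∀ n, area (Comp m) n ≤ area (NonEsc m) n := fun n =>
      mul_le_mul_right (measure_mono (comp_sub m n)) _
    have h8 : liminf (area (Comp m)) atTop ≤ liminf (area (NonEsc m)) atTop :=
      liminf_le_liminf (Eventually.of_forall h7) (by isBoundedDefault) (by isBoundedDefault)
    have h9 : limsup (area (Comp m)) atTop ≤ limsup (area (NonEsc m)) atTop :=
      limsup_le_limsup (Eventually.of_forall h7) (by isBoundedDefault) (by isBoundedDefault)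
    exact ⟨tendsto_of_le_liminf_of_limsup_le (h6.trans h8) h2 (by isBoundedDefault)
      (by isBoundedDefault), tendsto_of_le_liminf_of_limsup_le h6 (h9.trans h2)
      (by isBoundedDefault) (by isBoundedDefault)⟩
  · have h5 : (⨆ c : ℂ, infEDist c HypQuad) = 0 := by
      rw [ENNReal.iSup_eq_zero]
      intro c
      rw [← infEDist_closure, hd.closure_eq]
      exact infEDist_zero_of_mem (Set.mem_univ c)
    rw [h5, mul_zero] at h4
    exact tendsto_of_le_liminf_of_limsup_le zero_le h4 (by isBoundedDefault) (by isBoundedDefault)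

end Pool.Agent.Results.MP_28f8a1_an.QuadraticComparison
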