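import Mathlib
import Pool.Agent.Q77.Rand.Fin

/-! Random compositions of translates of a polynomial are hyperbolic with overwhelming
probability. -/

set_option autoImplicit false

open Filter Topology Polynomial MeasureTheory

namespace Pool.Agent.Results.MP_28f8a1_an.RandomCompositions

/-- The polynomial as a self-map of the plane. -/
def map (T : ℂ[X]) : ℂ → ℂ := fun w : ℂ => T.eval w

/-- The orbit of `z` escapes to infinity. -/
def Escapes (T : ℂ[X]) (z : ℂ) : Prop :=
  Tendsto (fun k : ℕ => ‖(map T)^[k] z‖) atTop atTop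

/-- The orbit of `z` is attracted by a sink (attracting periodic point) of `T`. -/
def Attracted (T : ℂ[X]) (z : ℂ) : Prop :=
  ∃ n : ℕ, 0 < n ∧ ∃ x : ℂ, (map T)^[n] x = x ∧ ‖deriv ((map T)^[n]) x‖ < 1 ∧
    Tendsto (fun k : ℕ => (map T)^[n * k] z) atTop (𝓝 x)

/-- `T` is hyperbolic: every critical point escapes or is attracted by a sink. -/
def Hyperbolic (T : ℂ[X]) : Prop :=
  ∀ c : ℂ, (derivative T).eval c = 0 → Escapes T c ∨ Attracted T c

/-- The composition `(f + t_{n-1}) ∘ ⋯ ∘ (f + t_1) ∘ (f + t_0)`, a polynomial of degree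
`(deg f)^n`. -/
noncomputable def composition (f : ℂ[X]) {n : ℕ} (t : Fin n → ℂ) : ℂ[X] :=
  (List.ofFn t).foldl (fun T s => (f + C s).comp T) X

/-- Let `f` be any polynomial of degree at least two, `U` a nonempty bounded open set (for example a
small disc about `0`) and `ν` a probability measure carried by `U` and positive on the nonempty open
subsets of `U` (for example the uniform distribution). Choose `t_0, t_1, …` independently with law
`ν`. (1) The probability that `(f + t_{n-1}) ∘ ⋯ ∘ (f + t_0)` is not hyperbolic is at most `C ρ^n`,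
where `ρ < 1`. (2) Almost surely `(f + t_{n-1}) ∘ ⋯ ∘ (f + t_0)` is hyperbolic for all large `n`. -/
theorem result (f : ℂ[X]) (hf : 2 ≤ f.natDegree) (U : Set ℂ) (hUo : IsOpen U) (hUn : U.Nonempty)
    (hUb : Bornology.IsBounded U) (ν : Measure ℂ) [IsProbabilityMeasure ν] (hνU : ν Uᶜ = 0)
    (hνo : ∀ V : Set ℂ, IsOpen V → V.Nonempty → V ⊆ U → ν V ≠ 0) :
    (∃ C ρ : ℝ, 0 < C ∧ 0 < ρ ∧ ρ < 1 ∧ ∀ n : ℕ,
      Measure.pi (fun _ : Fin n => ν) {t : Fin n → ℂ | ¬ Hyperbolic (composition f t)} ≤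
        ENNReal.ofReal (C * ρ ^ n)) ∧
    ∀ᵐ t ∂(Measure.infinitePi fun _ : ℕ => ν), ∀ᶠ n : ℕ in atTop,
      Hyperbolic (composition f fun i : Fin n => t i) := by
  obtain ⟨C, ρ, hC, hρ, hρ1, h⟩ := Pool.Agent.Q77.Rand.main f hf hUo hUn hUb ν hνU hνo
  have h' : ∀ n : ℕ, Measure.pi (fun _ : Fin n => ν)
      {t : Fin n → ℂ | ¬ Hyperbolic (composition f t)} ≤ ENNReal.ofReal (C * ρ ^ n) := h
  exact ⟨⟨C, ρ, hC, hρ, hρ1, h'⟩,
    Pool.Agent.Q77.Rand.ae_main ν (fun n t => Hyperbolic (composition f t)) hC hρ hρ1 h'⟩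

end Pool.Agent.Results.MP_28f8a1_an.RandomCompositions
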